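import Pool.Agent.Helper69.EK.Selberg

/-!
# Selberg's weights: the quadratic form and the bound `|λ_d| ≤ 1`
-/

set_option autoImplicit false

namespace Helper53AV

open Finset ArithmeticFunction Pool.Agent.Helper69.EK
open scoped ArithmeticFunction.Moebius ArithmeticFunction.zeta

theorem quad (D R : ℕ) (hR : 1 ≤ R) :
    ∑ d₁ ∈ Finset.Icc 1 R, ∑ d₂ ∈ Finset.Icc 1 R, lamW D R d₁ * lamW D R d₂ / (Nat.lcm d₁ d₂ : ℝ) =
      1 / GG D R := by
  classical
  have hG := GG_pos D R hR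
  have hlcm : ∀ d₁ ∈ Icc 1 R, ∀ d₂ ∈ Icc 1 R,
      lamW D R d₁ * lamW D R d₂ / (Nat.lcm d₁ d₂ : ℝ) =
      ∑ l ∈ Icc 1 R, (l.totient : ℝ) * ((if l ∣ d₁ then lamW D R d₁ / d₁ else 0) *
        (if l ∣ d₂ then lamW D R d₂ / d₂ else 0)) := by
    intro d₁ h₁ d₂ h₂
    rw [Finset.mem_Icc] at h₁ h₂
    have e1 : (d₁ : ℝ) ≠ 0 := by have := h₁.1; positivity
    have e2 : (d₂ : ℝ) ≠ 0 := by have := h₂.1; positivity
    have hgcd : ((d₁.gcd d₂ : ℕ) : ℝ) = ∑ l ∈ Icc 1 R,
        if l ∣ d₁ ∧ l ∣ d₂ then (l.totient : ℝ) else 0 := by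
      rw [← Finset.sum_filter]
      conv_lhs => rw [← Nat.sum_totient (d₁.gcd d₂)]
      rw [Nat.cast_sum]
      apply Finset.sum_congr _ (fun _ _ => rfl)
      ext l
      have hgpos : 0 < d₁.gcd d₂ := Nat.gcd_pos_of_pos_left _ (by omega)
      rw [Nat.mem_divisors, Finset.mem_filter, Finset.mem_Icc, Nat.dvd_gcd_iff]
      constructor
      · rintro ⟨h, _⟩
        exact ⟨⟨Nat.pos_of_dvd_of_pos h.1 (by omega), (Nat.le_of_dvd (by omega) h.1).trans h₁.2⟩,
          h⟩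
      · rintro ⟨_, h⟩
        exact ⟨h, hgpos.ne'⟩
    have hl : (Nat.lcm d₁ d₂ : ℝ) = d₁ * d₂ / (d₁.gcd d₂ : ℕ) := by
      have hg0 : ((d₁.gcd d₂ : ℕ) : ℝ) ≠ 0 := by
        have : 0 < d₁.gcd d₂ := Nat.gcd_pos_of_pos_left _ (by omega)
        positivity
      rw [eq_div_iff hg0]
      have := Nat.gcd_mul_lcm d₁ d₂
      rw [mul_comm]
      exact_mod_cast this
    rw [hl, div_div_eq_mul_div, hgcd, Finset.mul_sum, Finset.sum_div]
    apply Finset.sum_congr rfl
    intro l _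
    by_cases c1 : l ∣ d₁
    · by_cases c2 : l ∣ d₂
      · rw [if_pos ⟨c1, c2⟩, if_pos c1, if_pos c2]
        field_simp
      · rw [if_neg (fun h => c2 h.2), if_neg c2]
        simp
    · rw [if_neg (fun h => c1 h.1), if_neg c1]
      simp
  rw [Finset.sum_congr rfl (fun d₁ h₁ => Finset.sum_congr rfl (fun d₂ h₂ => hlcm d₁ h₁ d₂ h₂))]
  have hswap : ∑ d₁ ∈ Icc 1 R, ∑ d₂ ∈ Icc 1 R, ∑ l ∈ Icc 1 R, (l.totient : ℝ) *
      ((if l ∣ d₁ then lamW D R d₁ / d₁ else 0) * (if l ∣ d₂ then lamW D R d₂ / d₂ else 0)) =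
      ∑ l ∈ Icc 1 R, (l.totient : ℝ) *
        (∑ d ∈ (Icc 1 R).filter (fun d => l ∣ d), lamW D R d / d) ^ 2 := by
    have h1 : ∀ d₁ ∈ Icc 1 R, ∑ d₂ ∈ Icc 1 R, ∑ l ∈ Icc 1 R, (l.totient : ℝ) *
      ((if l ∣ d₁ then lamW D R d₁ / d₁ else 0) * (if l ∣ d₂ then lamW D R d₂ / d₂ else 0)) =
        ∑ l ∈ Icc 1 R, ∑ d₂ ∈ Icc 1 R, (l.totient : ℝ) *
      ((if l ∣ d₁ then lamW D R d₁ / d₁ else 0) * (if l ∣ d₂ then lamW D R d₂ / d₂ else 0)) :=
      fun d₁ _ => Finset.sum_comm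
    rw [Finset.sum_congr rfl h1, Finset.sum_comm]
    apply Finset.sum_congr rfl
    intro l _
    rw [Finset.sum_filter, sq, Finset.sum_mul_sum, Finset.mul_sum]
    apply Finset.sum_congr rfl
    intro d₁ _
    rw [Finset.mul_sum]
  rw [hswap]
  simp only [y_eq D R _ hR]
  have hfin : ∑ l ∈ Icc 1 R, (l.totient : ℝ) *
      (if l ∈ AA D R then (μ l : ℝ) / (GG D R * l.totient) else 0) ^ 2 = 1 / GG D R := by
    have hsub : AA D R ⊆ Icc 1 R := by
      intro l hl
      rw [Finset.mem_Icc]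
      exact (mem_AA.1 hl).1
    rw [← Finset.sum_subset hsub]
    · have h1 : ∀ l ∈ AA D R, (l.totient : ℝ) *
          (if l ∈ AA D R then (μ l : ℝ) / (GG D R * l.totient) else 0) ^ 2 =
          (1 / GG D R ^ 2) * (1 / l.totient) := by
        intro l hl
        rw [if_pos hl]
        have hA := mem_AA.1 hl
        have h2 : ((μ l : ℤ) : ℝ) ^ 2 = 1 := by
          have := moebius_sq_eq_one_of_squarefree hA.2.1
          exact_mod_cast this
        have h3 : (l.totient : ℝ) ≠ 0 := by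
          have := Nat.totient_pos.2 hA.1.1
          positivity
        rw [div_pow, h2]
        field_simp
      rw [Finset.sum_congr rfl h1, ← Finset.mul_sum]
      change 1 / GG D R ^ 2 * GG D R = 1 / GG D R
      field_simp
    · intro l _ hl
      rw [if_neg hl]
      simp
  rw [hfin]

theorem sum_inv_totient {d : ℕ} (hd : Squarefree d) :
    ∑ k ∈ d.divisors, (1 : ℝ) / k.totient = d / d.totient := by
  have hd0 : d ≠ 0 := hd.ne_zero
  have hphi : (0 : ℝ) < d.totient := by exact_mod_cast Nat.totient_pos.2 (Nat.pos_of_ne_zero hd0)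
  rw [eq_div_iff hphi.ne', Finset.sum_mul]
  have h : ∀ k ∈ d.divisors, (1 : ℝ) / k.totient * d.totient = (d / k).totient := by
    intro k hk
    rw [Nat.mem_divisors] at hk
    obtain ⟨e, rfl⟩ := hk.1
    have hk0 : 0 < k := Nat.pos_of_ne_zero (fun h => hd0 (by rw [h, zero_mul]))
    have hcop : Nat.Coprime k e := Nat.coprime_of_squarefree_mul hd
    rw [Nat.totient_mul hcop, Nat.mul_div_cancel_left _ hk0]
    have : (k.totient : ℝ) ≠ 0 := by
      have := Nat.totient_pos.2 hk0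
      positivity
    push_cast
    field_simp
  rw [Finset.sum_congr rfl h, ← Nat.cast_sum, Nat.sum_div_divisors d (fun k => k.totient),
    Nat.sum_totient]

theorem key_le {D R d : ℕ} (hd : d ∈ AA D R) :
    (d : ℝ) * ∑ m ∈ (AA D R).filter (fun m => d ∣ m), (1 : ℝ) / m.totient ≤ GG D R := by
  classical
  have hA := mem_AA.1 hd
  have hd1 : 0 < d := hA.1.1
  have hphi : (d.totient : ℝ) ≠ 0 := by
    have := Nat.totient_pos.2 hd1
    positivity
  have h1 : ∀ m ∈ (AA D R).filter (fun m => d ∣ m),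
      (1 : ℝ) / m.totient = 1 / d.totient * (1 / (m / d).totient) ∧ Nat.Coprime (m / d) d ∧
        m / d * d = m ∧ 0 < m := by
    intro m hm
    rw [Finset.mem_filter, mem_AA] at hm
    obtain ⟨⟨⟨hm1, hm2⟩, hm3, hm4⟩, e, rfl⟩ := hm
    have hcop : Nat.Coprime d e := Nat.coprime_of_squarefree_mul hm3
    rw [Nat.mul_div_cancel_left _ hd1]
    refine ⟨?_, hcop.symm, mul_comm _ _, hm1⟩
    rw [Nat.totient_mul hcop, Nat.cast_mul, one_div_mul_one_div]
  rw [Finset.sum_congr rfl (fun m hm => (h1 m hm).1), ← Finset.mul_sum, ← mul_assoc,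
    mul_one_div, ← sum_inv_totient hA.2.1, Finset.sum_mul_sum, ← Finset.sum_product']
  have hinj : Set.InjOn (fun x : ℕ × ℕ => x.1 * (x.2 / d))
      (d.divisors ×ˢ (AA D R).filter (fun m => d ∣ m) : Finset (ℕ × ℕ)) := by
    rintro ⟨k, m⟩ hx ⟨k', m'⟩ hx' heq
    rw [Finset.coe_product, Set.mem_prod, Finset.mem_coe, Finset.mem_coe] at hx hx'
    simp only at heq hx hx'
    obtain ⟨-, hc, he, -⟩ := h1 m hx.2
    obtain ⟨-, hc', he', -⟩ := h1 m' hx'.2
    have hk := Nat.dvd_of_mem_divisors hx.1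
    have hk' := Nat.dvd_of_mem_divisors hx'.1
    have g1 : (k * (m / d)).gcd d = k := by
      rw [Nat.Coprime.gcd_mul_right_cancel k hc]
      exact Nat.gcd_eq_left hk
    have g2 : (k' * (m' / d)).gcd d = k' := by
      rw [Nat.Coprime.gcd_mul_right_cancel k' hc']
      exact Nat.gcd_eq_left hk'
    have hkk : k = k' := by rw [← g1, ← g2, heq]
    subst hkk
    have hk0 : 0 < k := Nat.pos_of_dvd_of_pos hk hd1
    have := Nat.eq_of_mul_eq_mul_left hk0 heq
    rw [← he, ← he', this]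
  have h2 : ∑ x ∈ d.divisors ×ˢ (AA D R).filter (fun m => d ∣ m),
      (1 : ℝ) / (x.1.totient : ℝ) * (1 / ((x.2 / d).totient : ℝ)) =
      ∑ l ∈ (d.divisors ×ˢ (AA D R).filter (fun m => d ∣ m)).image
        (fun x : ℕ × ℕ => x.1 * (x.2 / d)), (1 : ℝ) / l.totient := by
    rw [Finset.sum_image hinj]
    apply Finset.sum_congr rfl
    rintro ⟨k, m⟩ hx
    rw [Finset.mem_product] at hx
    obtain ⟨-, hc, he, -⟩ := h1 m hx.2
    have hk := Nat.dvd_of_mem_divisors hx.1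
    rw [Nat.totient_mul (hc.coprime_dvd_right hk).symm, Nat.cast_mul, one_div_mul_one_div]
  rw [h2]
  apply Finset.sum_le_sum_of_subset_of_nonneg
  · intro l hl
    rw [Finset.mem_image] at hl
    obtain ⟨⟨k, m⟩, hx, rfl⟩ := hl
    rw [Finset.mem_product] at hx
    obtain ⟨-, hc, he, hm0⟩ := h1 m hx.2
    have hk := Nat.dvd_of_mem_divisors hx.1
    have hm := mem_AA.1 (Finset.mem_filter.1 hx.2).1
    have hdv : k * (m / d) ∣ m := by
      conv_rhs => rw [← he, mul_comm]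
      exact Nat.mul_dvd_mul_right hk _
    rw [mem_AA]
    exact ⟨⟨Nat.pos_of_dvd_of_pos hdv hm0, (Nat.le_of_dvd hm0 hdv).trans hm.1.2⟩,
      hm.2.1.squarefree_of_dvd hdv, hm.2.2.coprime_dvd_left hdv⟩
  · intro _ _ _; positivity

theorem abs_lamW_le (D R d : ℕ) (hR : 1 ≤ R) : |lamW D R d| ≤ 1 := by
  classical
  have hG := GG_pos D R hR
  unfold lamW
  by_cases h : d ∈ AA D R
  · rw [if_pos h]
    have h1 : |(μ d : ℝ)| ≤ 1 := by
      have := abs_moebius_le_one (n := d)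
      exact_mod_cast this
    have h2 := key_le h
    have h3 : 0 ≤ ∑ m ∈ (AA D R).filter (fun m => d ∣ m), (1 : ℝ) / m.totient :=
      Finset.sum_nonneg (fun _ _ => by positivity)
    have e : (μ d : ℝ) * d / GG D R * ∑ m ∈ (AA D R).filter (fun m => d ∣ m), (1 : ℝ) / m.totient =
        (μ d : ℝ) * ((d * ∑ m ∈ (AA D R).filter (fun m => d ∣ m), (1 : ℝ) / m.totient) / GG D R) := by
      ring
    rw [e, abs_mul]
    have h4 : |(d * ∑ m ∈ (AA D R).filter (fun m => d ∣ m), (1 : ℝ) / m.totient) / GG D R| ≤ 1 := by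
      rw [abs_of_nonneg (by positivity), div_le_one hG]
      exact h2
    calc _ ≤ (1 : ℝ) * 1 := mul_le_mul h1 h4 (abs_nonneg _) zero_le_one
      _ = 1 := one_mul 1
  · rw [if_neg h, abs_zero]; exact zero_le_one

theorem lamW_one (D R : ℕ) (hR : 1 ≤ R) : lamW D R 1 = 1 := by
  classical
  have hG := GG_pos D R hR
  unfold lamW
  rw [if_pos (mem_AA.2 ⟨⟨le_refl _, by omega⟩, squarefree_one, Nat.coprime_one_left D⟩)]
  have : ∑ m ∈ (AA D R).filter (fun m => 1 ∣ m), (1 : ℝ) / m.totient = GG D R := by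
    unfold GG
    apply Finset.sum_congr _ (fun _ _ => rfl)
    simp
  rw [this]
  simp only [moebius_apply_one, Nat.cast_one, mul_one]
  push_cast
  field_simp

theorem lamW_ne {D R d : ℕ} (hd : lamW D R d ≠ 0) : d ∈ AA D R := by
  unfold lamW at hd
  by_contra h
  rw [if_neg h] at hd
  exact hd rfl

end Helper53AV
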