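import Pool.Agent.Helper53.AV.SelW
import Pool.Agent.Helper40.AV.St

/-!
# AV2: Selberg's sieve for multiples of `p` in an interval
-/

set_option autoImplicit false

namespace Helper53AV

open Finset
open Pool.Agent.Helper69.EK (AA mem_AA lamW GG_pos)

/-- the product of the primes in `(z, R]` -/
noncomputable def DD (z : ℝ) (R : ℕ) : ℕ := by
  classical
  exact ∏ p ∈ (Icc 1 R).filter (fun p : ℕ => p.Prime ∧ z < (p : ℝ)), p

theorem coprime_DD {z : ℝ} {R l : ℕ} (hl : 1 ≤ l) (hlR : l ≤ R) :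
    Nat.Coprime l (DD z R) ↔ ∀ r : ℕ, r.Prime → r ∣ l → (r : ℝ) ≤ z := by
  classical
  unfold DD
  constructor
  · intro h r hr hrl
    by_contra hz
    push Not at hz
    have hrR : r ≤ R := (Nat.le_of_dvd hl hrl).trans hlR
    have hmem : r ∈ (Icc 1 R).filter (fun p : ℕ => p.Prime ∧ z < (p : ℝ)) := by
      rw [Finset.mem_filter, Finset.mem_Icc]
      exact ⟨⟨hr.one_le, hrR⟩, hr, hz⟩
    exact Nat.not_coprime_of_dvd_of_dvd hr.one_lt hrl (Finset.dvd_prod_of_mem _ hmem) h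
  · intro h
    rw [Nat.coprime_prod_right_iff]
    intro p hp
    rw [Finset.mem_filter] at hp
    rw [Nat.coprime_comm, Nat.Prime.coprime_iff_not_dvd hp.2.1]
    intro hpl
    exact absurd (h p hp.2.1 hpl) (not_le.2 hp.2.2)

theorem GG_eq (z Y : ℝ) : Pool.Agent.Helper40.AV.GG z Y =
    Pool.Agent.Helper69.EK.GG (DD z ⌊Y⌋₊) ⌊Y⌋₊ := by
  classical
  unfold Pool.Agent.Helper40.AV.GG Pool.Agent.Helper69.EK.GG
  apply Finset.sum_congr _ (fun _ _ => rfl)
  ext l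
  rw [mem_AA, Finset.mem_filter, Finset.mem_Icc]
  constructor
  · rintro ⟨h1, h2, h3⟩
    exact ⟨h1, h2, (coprime_DD h1.1 h1.2).2 h3⟩
  · rintro ⟨h1, h2, h3⟩
    exact ⟨h1, h2, (coprime_DD h1.1 h1.2).1 h3⟩

/-- the number of multiples of `q` in an interval -/
theorem card_mult (y l q : ℕ) (hq : 0 < q) :
    |((((Finset.Ico y (y + l)).filter fun n => q ∣ n).card : ℕ) : ℝ) - (l : ℝ) / q| ≤ 1 := by
  have hq' : (0 : ℚ) < q := by exact_mod_cast hq
  have h0 : ((Finset.Ico y (y + l)).filter fun n => q ∣ n) =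
      (Finset.Ico y (y + l)).filter fun n => n ≡ 0 [MOD q] := by
    apply Finset.filter_congr
    intro n _
    exact (Nat.modEq_zero_iff_dvd).symm
  have h1 := Nat.Ico_filter_modEq_card y (y + l) hq 0
  rw [← h0] at h1
  simp only [Nat.cast_zero, sub_zero] at h1
  have hle : ⌈(y : ℚ) / (q : ℚ)⌉ ≤ ⌈((y + l : ℕ) : ℚ) / (q : ℚ)⌉ := by
    apply Int.ceil_mono
    apply div_le_div_of_nonneg_right _ hq'.le
    push_cast
    have : (0 : ℚ) ≤ l := Nat.cast_nonneg _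
    linarith
  rw [max_eq_left (sub_nonneg.2 hle)] at h1
  set N := ((Finset.Ico y (y + l)).filter fun n => q ∣ n).card with hN
  have h2 : (N : ℚ) = (⌈((y + l : ℕ) : ℚ) / (q : ℚ)⌉ : ℚ) - (⌈(y : ℚ) / (q : ℚ)⌉ : ℚ) := by
    exact_mod_cast h1
  have a1 := Int.le_ceil (((y + l : ℕ) : ℚ) / (q : ℚ))
  have a2 := Int.ceil_lt_add_one (((y + l : ℕ) : ℚ) / (q : ℚ))
  have a3 := Int.le_ceil ((y : ℚ) / (q : ℚ))
  have a4 := Int.ceil_lt_add_one ((y : ℚ) / (q : ℚ))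
  have a5 : ((y + l : ℕ) : ℚ) / (q : ℚ) = (y : ℚ) / q + (l : ℚ) / q := by
    push_cast; rw [add_div]
  have h3 : |(N : ℚ) - (l : ℚ) / q| ≤ 1 := by
    rw [abs_le]
    rw [a5] at a1 a2
    constructor
    · rw [h2, a5]; linarith
    · rw [h2, a5]; linarith
  have h4 : ((|(N : ℚ) - (l : ℚ) / q| : ℚ) : ℝ) ≤ ((1 : ℚ) : ℝ) := Rat.cast_le.2 h3
  push_cast at h4
  exact h4

theorem selbergP : Pool.Agent.Helper40.AV.SelbergP := by
  classical
  intro y l p z Y hp hY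
  rw [GG_eq]
  set R := ⌊Y⌋₊ with hR
  have hR1 : 1 ≤ R := (Nat.one_le_floor_iff Y).2 hY
  set D := DD z R with hD
  have hG := GG_pos D R hR1
  set S := (Finset.Ico y (y + l)).filter fun n => p ∣ n with hS
  set lam := lamW D R with hlam
  -- the count is at most the sum of squares
  have h1 : ((((Finset.Ico y (y + l)).filter fun n => p ∣ n ∧
      ∀ r : ℕ, r.Prime → r ∣ n → z < r).card : ℕ) : ℝ) ≤
      ∑ n ∈ S, (∑ d ∈ (Icc 1 R).filter (fun d => d ∣ n / p), lam d) ^ 2 := by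
    have hsub : ((Finset.Ico y (y + l)).filter fun n => p ∣ n ∧
      ∀ r : ℕ, r.Prime → r ∣ n → z < r) ⊆ S := by
      intro n hn
      rw [Finset.mem_filter] at hn ⊢
      exact ⟨hn.1, hn.2.1⟩
    rw [Finset.card_eq_sum_ones, Nat.cast_sum]
    refine le_trans (Finset.sum_le_sum ?_) (Finset.sum_le_sum_of_subset_of_nonneg hsub
      (fun _ _ _ => sq_nonneg _))
    intro n hn
    rw [Finset.mem_filter] at hn
    have h2 : ∑ d ∈ (Icc 1 R).filter (fun d => d ∣ n / p), lam d = 1 := by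
      rw [Finset.sum_eq_single 1]
      · exact lamW_one D R hR1
      · intro d hd hd1
        rw [Finset.mem_filter, Finset.mem_Icc] at hd
        by_contra hne
        have hA := mem_AA.1 (lamW_ne hne)
        have h3 := (coprime_DD hd.1.1 hd.1.2).1 hA.2.2
        obtain ⟨r, hr, hrd⟩ := Nat.exists_prime_and_dvd hd1
        have h4 : r ∣ n := (hrd.trans hd.2).trans (Nat.div_dvd_of_dvd hn.2.1)
        exact absurd (h3 r hr hrd) (not_le.2 (hn.2.2 r hr h4))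
      · intro h
        refine absurd ?_ h
        rw [Finset.mem_filter, Finset.mem_Icc]
        exact ⟨⟨le_refl _, hR1⟩, one_dvd _⟩
    rw [h2]
    norm_num
  -- expansion
  have h2 : ∑ n ∈ S, (∑ d ∈ (Icc 1 R).filter (fun d => d ∣ n / p), lam d) ^ 2 =
      ∑ d₁ ∈ Icc 1 R, ∑ d₂ ∈ Icc 1 R, lam d₁ * lam d₂ *
        (((Finset.Ico y (y + l)).filter fun n => p * Nat.lcm d₁ d₂ ∣ n).card : ℝ) := by
    have h3 : ∀ n ∈ S, (∑ d ∈ (Icc 1 R).filter (fun d => d ∣ n / p), lam d) ^ 2 =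
        ∑ d₁ ∈ Icc 1 R, ∑ d₂ ∈ Icc 1 R, lam d₁ * lam d₂ *
          (if p * Nat.lcm d₁ d₂ ∣ n then 1 else 0) := by
      intro n hn
      rw [hS, Finset.mem_filter] at hn
      rw [Finset.sum_filter, sq, Finset.sum_mul_sum]
      apply Finset.sum_congr rfl
      intro d₁ _
      apply Finset.sum_congr rfl
      intro d₂ _
      have h4 : p * Nat.lcm d₁ d₂ ∣ n ↔ d₁ ∣ n / p ∧ d₂ ∣ n / p := by
        rw [← Nat.lcm_dvd_iff, Nat.dvd_div_iff_mul_dvd hn.2]
      by_cases c1 : d₁ ∣ n / p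
      · by_cases c2 : d₂ ∣ n / p
        · rw [if_pos c1, if_pos c2, if_pos (h4.2 ⟨c1, c2⟩), mul_one]
        · rw [if_neg c2, if_neg (fun h => c2 (h4.1 h).2), mul_zero, mul_zero]
      · rw [if_neg c1, if_neg (fun h => c1 (h4.1 h).1), mul_zero, zero_mul]
    rw [Finset.sum_congr rfl h3, Finset.sum_comm]
    apply Finset.sum_congr rfl
    intro d₁ _
    rw [Finset.sum_comm]
    apply Finset.sum_congr rfl
    intro d₂ _
    rw [← Finset.mul_sum]
    congr 1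
    rw [← Finset.sum_filter, Finset.card_eq_sum_ones, Nat.cast_sum, hS, Finset.filter_filter]
    simp only [Nat.cast_one]
    apply Finset.sum_congr _ (fun _ _ => rfl)
    apply Finset.filter_congr
    intro n _
    constructor
    · rintro ⟨_, h⟩; exact h
    · intro h; exact ⟨(Nat.dvd_mul_right _ _).trans h, h⟩
  have hp0 : (0 : ℝ) < p := by exact_mod_cast hp
  have h5 : ∀ d₁ ∈ Icc 1 R, ∀ d₂ ∈ Icc 1 R, lam d₁ * lam d₂ *
        (((Finset.Ico y (y + l)).filter fun n => p * Nat.lcm d₁ d₂ ∣ n).card : ℝ) ≤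
      (l : ℝ) / p * (lam d₁ * lam d₂ / (Nat.lcm d₁ d₂ : ℝ)) + 1 := by
    intro d₁ h₁ d₂ h₂
    rw [Finset.mem_Icc] at h₁ h₂
    have hl0 : 0 < Nat.lcm d₁ d₂ := Nat.lcm_pos h₁.1 h₂.1
    have h6 := card_mult y l (p * Nat.lcm d₁ d₂) (Nat.mul_pos hp hl0)
    set N := (((Finset.Ico y (y + l)).filter fun n => p * Nat.lcm d₁ d₂ ∣ n).card : ℝ) with hN
    have h7 : |lam d₁ * lam d₂| ≤ 1 := by
      rw [abs_mul]
      calc _ ≤ (1 : ℝ) * 1 := mul_le_mul (abs_lamW_le D R d₁ hR1) (abs_lamW_le D R d₂ hR1)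
            (abs_nonneg _) zero_le_one
        _ = 1 := one_mul 1
    have h8 : lam d₁ * lam d₂ * (N - (l : ℝ) / ((p * Nat.lcm d₁ d₂ : ℕ) : ℝ)) ≤ 1 := by
      refine (le_abs_self _).trans ?_
      rw [abs_mul]
      calc _ ≤ (1 : ℝ) * 1 := mul_le_mul h7 h6 (abs_nonneg _) zero_le_one
        _ = 1 := one_mul 1
    have h9 : (l : ℝ) / p * (lam d₁ * lam d₂ / (Nat.lcm d₁ d₂ : ℝ)) =
        lam d₁ * lam d₂ * ((l : ℝ) / ((p * Nat.lcm d₁ d₂ : ℕ) : ℝ)) := by
      push_cast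
      have : ((Nat.lcm d₁ d₂ : ℕ) : ℝ) ≠ 0 := by exact_mod_cast hl0.ne'
      field_simp
    rw [h9]
    nlinarith
  have h6 : ∑ n ∈ S, (∑ d ∈ (Icc 1 R).filter (fun d => d ∣ n / p), lam d) ^ 2 ≤
      (l : ℝ) / p * (1 / Pool.Agent.Helper69.EK.GG D R) + (R : ℝ) ^ 2 := by
    rw [h2]
    refine (Finset.sum_le_sum fun d₁ h₁ => Finset.sum_le_sum fun d₂ h₂ => h5 d₁ h₁ d₂ h₂).trans ?_
    simp only [Finset.sum_add_distrib, ← Finset.mul_sum, Finset.sum_const, Nat.card_Icc,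
      nsmul_eq_mul, mul_one, Nat.add_sub_cancel]
    rw [quad D R hR1]
    apply le_of_eq
    ring
  have hRY : (R : ℝ) ≤ Y := Nat.floor_le (by linarith)
  have hR0 : (0 : ℝ) ≤ R := Nat.cast_nonneg _
  have h7 : (l : ℝ) / p * (1 / Pool.Agent.Helper69.EK.GG D R) ≤
      (l / p + 1) / Pool.Agent.Helper69.EK.GG D R := by
    rw [mul_one_div]
    apply div_le_div_of_nonneg_right _ hG.le
    linarith
  nlinarith [h1, h6, h7]

end Helper53AV
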